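import Pool.Agent.Q67.HV.Defs

/-!
# Project HV, job M: the maximal inequality in `L²` on `ℝ³`
-/

set_option autoImplicit false

open MeasureTheory Set Metric Filter Topology
open scoped ENNReal NNReal

namespace Q52.HV

open H772R2.NS
open Pool.Agent.Q67.HV (MM StmM)

lemma vball (x : E3) {r : ℝ} (hr : 0 ≤ r) :
    volume (ball x r) = ENNReal.ofReal (r ^ 3) * volume (ball (0 : E3) 1) := by
  have h := Measure.addHaar_ball (volume : Measure E3) x hr
  rwa [finrank_euclideanSpace_fin] at h

/-- the integral over a ball is lower semicontinuous -/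
lemma lsc_ball (f : E3 → ℝ≥0∞) (r : ℝ) :
    LowerSemicontinuous fun x : E3 => ∫⁻ y in ball x r, f y := by
  intro x a ha
  have h1 : ball x r = ⋃ n : ℕ, ball x (r - 1 / (n + 1)) := by
    ext y
    simp only [mem_ball, mem_iUnion]
    constructor
    · intro h
      obtain ⟨n, hn⟩ := exists_nat_one_div_lt (sub_pos.2 h)
      exact ⟨n, by linarith⟩
    · rintro ⟨n, hn⟩
      have : (0 : ℝ) < 1 / ((n : ℝ) + 1) := by positivity
      linarith
  have h2 : Directed (· ⊆ ·) fun n : ℕ => ball x (r - 1 / ((n : ℝ) + 1)) := by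
    apply Monotone.directed_le
    intro m n hmn
    apply ball_subset_ball
    have : (1 : ℝ) / ((n : ℝ) + 1) ≤ 1 / ((m : ℝ) + 1) := by
      apply one_div_le_one_div_of_le (by positivity)
      have : (m : ℝ) ≤ n := by exact_mod_cast hmn
      linarith
    linarith
  have h3 : ∫⁻ y in ball x r, f y = ⨆ n : ℕ, ∫⁻ y in ball x (r - 1 / ((n : ℝ) + 1)), f y := by
    conv_lhs => rw [h1]
    exact setLIntegral_iUnion_of_directed f h2
  have ha' : a < ⨆ n : ℕ, ∫⁻ y in ball x (r - 1 / ((n : ℝ) + 1)), f y := by rw [← h3]; exact ha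
  obtain ⟨n, hn⟩ := lt_iSup_iff.1 ha'
  have h4 : (0 : ℝ) < 1 / ((n : ℝ) + 1) := by positivity
  filter_upwards [ball_mem_nhds x h4] with x' hx'
  refine hn.trans_le (lintegral_mono_set ?_)
  intro y hy
  rw [mem_ball] at hy hx' ⊢
  have := dist_triangle y x x'
  rw [dist_comm x x'] at this
  linarith

lemma meas_MM (f : E3 → ℝ≥0∞) : Measurable (MM f) := by
  have h : LowerSemicontinuous (MM f) := by
    apply lowerSemicontinuous_iSup
    intro r
    apply lowerSemicontinuous_iSup
    intro hr
    have h1 : (fun x : E3 => (volume (ball x r))⁻¹ * ∫⁻ y in ball x r, f y) =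
        fun x : E3 => (ENNReal.ofReal (r ^ 3) * volume (ball (0 : E3) 1))⁻¹ *
          ∫⁻ y in ball x r, f y := by
      funext x
      rw [vball x hr.le]
    rw [h1]
    set c := (ENNReal.ofReal (r ^ 3) * volume (ball (0 : E3) 1))⁻¹ with hc
    have hv0 : volume (ball (0 : E3) 1) ≠ 0 := (measure_ball_pos volume _ one_pos).ne'
    have hc1 : c ≠ ⊤ := by
      rw [hc, ENNReal.inv_ne_top]
      refine mul_ne_zero ?_ hv0
      rw [Ne, ENNReal.ofReal_eq_zero, not_le]
      positivity
    intro x a ha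
    have hcont : Continuous fun u : ℝ≥0∞ => c * u := ENNReal.continuous_const_mul hc1
    have hmono : Monotone fun u : ℝ≥0∞ => c * u := fun u v h => mul_le_mul_right h c
    exact (hcont.comp_lowerSemicontinuous (lsc_ball f r) hmono) x a ha
  exact h.measurable

/-- the weak type inequality -/
lemma weak (f : E3 → ℝ≥0∞) (t : ℝ≥0∞) (ht0 : t ≠ 0) (ht : t ≠ ⊤) :
    t * volume {x | t < MM f x} ≤ 64 * ∫⁻ x, f x := by
  by_cases hI : ∫⁻ x, f x = ⊤
  · rw [hI, ENNReal.mul_top (by norm_num)]
    exact le_top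
  have hv0 : volume (ball (0 : E3) 1) ≠ 0 := (measure_ball_pos volume _ one_pos).ne'
  have hv1 : volume (ball (0 : E3) 1) ≠ ⊤ := measure_ball_lt_top.ne
  set A := {x | t < MM f x} with hA
  have hch : ∀ x : E3, ∃ r : ℝ, x ∈ A → 0 < r ∧ t * volume (ball x r) ≤ ∫⁻ y in ball x r, f y := by
    intro x
    by_cases hx : x ∈ A
    · have h1 : t < MM f x := hx
      unfold MM at h1
      obtain ⟨r, hr⟩ := lt_iSup_iff.1 h1
      obtain ⟨hr0, hr1⟩ := lt_iSup_iff.1 hr
      refine ⟨r, fun _ => ⟨hr0, ?_⟩⟩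
      have hv : volume (ball x r) ≠ 0 := (measure_ball_pos volume _ hr0).ne'
      have hv' : volume (ball x r) ≠ ⊤ := measure_ball_lt_top.ne
      have hr2 : t < (∫⁻ y in ball x r, f y) / volume (ball x r) := by
        rwa [ENNReal.div_eq_inv_mul]
      exact (ENNReal.le_div_iff_mul_le (Or.inl hv) (Or.inl hv')).1 hr2.le
    · exact ⟨0, fun h => absurd h hx⟩
  choose ρ hρ using hch
  -- the radii are bounded
  set b : ℝ≥0∞ := (∫⁻ x, f x) / (t * volume (ball (0 : E3) 1)) with hb
  have hb1 : b ≠ ⊤ := ENNReal.div_ne_top hI (mul_ne_zero ht0 hv0)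
  have hbd : ∀ x ∈ A, ρ x ≤ max 1 b.toReal := by
    intro x hx
    obtain ⟨h0, h1⟩ := hρ x hx
    by_contra hcon
    rw [not_le, max_lt_iff] at hcon
    have h2 : t * (ENNReal.ofReal (ρ x ^ 3) * volume (ball (0 : E3) 1)) ≤ ∫⁻ x, f x := by
      rw [← vball x h0.le]
      exact h1.trans (setLIntegral_le_lintegral _ _)
    have h3 : ENNReal.ofReal (ρ x ^ 3) ≤ b := by
      rw [hb, ENNReal.le_div_iff_mul_le (Or.inl (mul_ne_zero ht0 hv0))
        (Or.inl (ENNReal.mul_ne_top ht hv1))]
      calc ENNReal.ofReal (ρ x ^ 3) * (t * volume (ball (0 : E3) 1)) =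
          t * (ENNReal.ofReal (ρ x ^ 3) * volume (ball (0 : E3) 1)) := by ring
        _ ≤ _ := h2
    have h4 : ρ x ^ 3 ≤ b.toReal := (ENNReal.ofReal_le_iff_le_toReal hb1).1 h3
    have h5 : ρ x ≤ ρ x ^ 3 := le_self_pow₀ hcon.1.le (by norm_num)
    linarith [hcon.2]
  obtain ⟨u, huA, hdis, hcov⟩ := Vitali.exists_disjoint_subfamily_covering_enlargement_ball
    A (fun x => x) ρ (max 1 b.toReal) hbd 4 (by norm_num)
  have huc : u.Countable := by
    apply hdis.countable_of_isOpen
    · intro x _; exact isOpen_ball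
    · intro x hx
      exact ⟨x, mem_ball_self (hρ x (huA hx)).1⟩
  have hAsub : A ⊆ ⋃ x ∈ u, ball x (4 * ρ x) := by
    intro x hx
    obtain ⟨y, hy, hxy⟩ := hcov x hx
    exact mem_biUnion hy (hxy (mem_ball_self (hρ x hx).1))
  calc t * volume A ≤ t * ∑' x : u, volume (ball (x : E3) (4 * ρ x)) := by
        apply mul_le_mul_right
        exact (measure_mono hAsub).trans (measure_biUnion_le _ huc _)
    _ = 64 * ∑' x : u, t * volume (ball (x : E3) (ρ x)) := by
        rw [← ENNReal.tsum_mul_left, ← ENNReal.tsum_mul_left]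
        apply tsum_congr
        intro x
        have h0 := (hρ x (huA x.2)).1
        rw [vball _ (by positivity), vball _ h0.le, mul_pow, ENNReal.ofReal_mul (by norm_num)]
        have : ENNReal.ofReal ((4 : ℝ) ^ 3) = 64 := by
          norm_num
        rw [this]
        ring
    _ ≤ 64 * ∑' x : u, ∫⁻ y in ball (x : E3) (ρ x), f y := by
        apply mul_le_mul_right
        exact ENNReal.tsum_le_tsum fun x => (hρ x (huA x.2)).2
    _ = 64 * ∫⁻ y in ⋃ x ∈ u, ball x (ρ x), f y := by
        rw [lintegral_biUnion huc (fun x _ => measurableSet_ball) hdis]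
    _ ≤ 64 * ∫⁻ x, f x := by
        apply mul_le_mul_right
        exact setLIntegral_le_lintegral _ _

/-- splitting -/
lemma split (f : E3 → ℝ≥0∞) (c : ℝ≥0∞) (x : E3) :
    MM f x ≤ MM (fun y => {y | c < f y}.indicator f y) x + c := by
  unfold MM
  apply iSup_le
  intro r
  apply iSup_le
  intro hr
  have hv : volume (ball x r) ≠ 0 := (measure_ball_pos volume _ hr).ne'
  have hv' : volume (ball x r) ≠ ⊤ := measure_ball_lt_top.ne
  have h1 : ∫⁻ y in ball x r, f y ≤
      (∫⁻ y in ball x r, {y | c < f y}.indicator f y) + c * volume (ball x r) := by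
    rw [← setLIntegral_const, ← lintegral_add_right _ measurable_const]
    apply lintegral_mono
    intro y
    by_cases h : c < f y
    · show f y ≤ {y | c < f y}.indicator f y + c
      rw [indicator_of_mem (show y ∈ {y | c < f y} from h)]
      exact le_self_add
    · show f y ≤ {y | c < f y}.indicator f y + c
      exact (not_lt.1 h).trans le_add_self
  calc (volume (ball x r))⁻¹ * ∫⁻ y in ball x r, f y ≤
      (volume (ball x r))⁻¹ * ((∫⁻ y in ball x r, {y | c < f y}.indicator f y) +
        c * volume (ball x r)) := mul_le_mul_right h1 _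
    _ = (volume (ball x r))⁻¹ * (∫⁻ y in ball x r, {y | c < f y}.indicator f y) + c := by
        rw [mul_add]
        congr 1
        rw [mul_comm c, ← mul_assoc, ENNReal.inv_mul_cancel hv hv', one_mul]
    _ ≤ _ := by
        gcongr
        exact le_iSup₂_of_le (f := fun r (_ : 0 < r) => (volume (ball x r))⁻¹ *
          ∫⁻ y in ball x r, {y | c < f y}.indicator f y) r hr le_rfl

lemma level (f : E3 → ℝ≥0∞) (hf : Measurable f) {t : ℝ} (ht : 0 < t) :
    ENNReal.ofReal t * volume {x | ENNReal.ofReal t < MM f x} ≤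
      128 * ∫⁻ x, {y | ENNReal.ofReal (t / 2) < f y}.indicator f x := by
  have h1 := weak (fun y => {y | ENNReal.ofReal (t / 2) < f y}.indicator f y)
    (ENNReal.ofReal (t / 2)) (by rw [Ne, ENNReal.ofReal_eq_zero, not_le]; positivity)
    ENNReal.ofReal_ne_top
  have h2 : {x | ENNReal.ofReal t < MM f x} ⊆
      {x | ENNReal.ofReal (t / 2) < MM (fun y => {y | ENNReal.ofReal (t / 2) < f y}.indicator f y) x} := by
    intro x hx
    have h3 : ENNReal.ofReal t < MM f x := hx
    have h4 := h3.trans_le (split f (ENNReal.ofReal (t / 2)) x)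
    have h5 : ENNReal.ofReal t = ENNReal.ofReal (t / 2) + ENNReal.ofReal (t / 2) := by
      rw [← ENNReal.ofReal_add (by positivity) (by positivity)]; congr 1; ring
    rw [h5] at h4
    exact lt_of_add_lt_add_right h4
  have h6 : ENNReal.ofReal t = 2 * ENNReal.ofReal (t / 2) := by
    rw [two_mul, ← ENNReal.ofReal_add (by positivity) (by positivity)]; congr 1; ring
  rw [h6]
  calc 2 * ENNReal.ofReal (t / 2) * volume {x | 2 * ENNReal.ofReal (t / 2) < MM f x} ≤
      2 * (ENNReal.ofReal (t / 2) * volume {x | ENNReal.ofReal (t / 2) <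
        MM (fun y => {y | ENNReal.ofReal (t / 2) < f y}.indicator f y) x}) := by
        rw [← mul_assoc, ← h6]
        exact mul_le_mul_right (measure_mono h2) _
    _ ≤ 2 * (64 * ∫⁻ x, {y | ENNReal.ofReal (t / 2) < f y}.indicator f x) :=
        mul_le_mul_right h1 _
    _ = _ := by rw [← mul_assoc]; norm_num

/-- layer cake, lower bound -/
lemma cake1 (u : ℝ≥0∞) :
    u ^ 2 ≤ ∫⁻ t in Ioi (0 : ℝ), {t : ℝ | ENNReal.ofReal t < u}.indicator
      (fun t => 2 * ENNReal.ofReal t) t := by
  have key : ∀ a : ℝ, 0 ≤ a → ENNReal.ofReal a ≤ u → ENNReal.ofReal a ^ 2 ≤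
      ∫⁻ t in Ioi (0 : ℝ), {t : ℝ | ENNReal.ofReal t < u}.indicator
      (fun t => 2 * ENNReal.ofReal t) t := by
    intro a ha hau
    have h1 : ENNReal.ofReal a ^ 2 = ∫⁻ t in Ioc (0 : ℝ) a, ENNReal.ofReal (2 * t) := by
      rw [← ofReal_integral_eq_lintegral_ofReal]
      · rw [← intervalIntegral.integral_of_le ha, intervalIntegral.integral_const_mul, integral_id,
          ← ENNReal.ofReal_pow ha]
        congr 1
        ring
      · exact (Continuous.integrableOn_Icc (by fun_prop)).mono_set Ioc_subset_Icc_self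
      · filter_upwards [ae_restrict_mem measurableSet_Ioc] with t ht
        have := ht.1
        show (0 : ℝ) ≤ 2 * t
        linarith
    rw [h1, ← restrict_Ioo_eq_restrict_Ioc, ← lintegral_indicator measurableSet_Ioo,
      ← lintegral_indicator measurableSet_Ioi]
    apply lintegral_mono
    intro t
    by_cases ht : t ∈ Ioo (0 : ℝ) a
    · show (Ioo (0 : ℝ) a).indicator _ t ≤ (Ioi (0 : ℝ)).indicator _ t
      rw [indicator_of_mem ht, indicator_of_mem (show t ∈ Ioi (0 : ℝ) from ht.1),
        indicator_of_mem (show t ∈ {t : ℝ | ENNReal.ofReal t < u} from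
          ((ENNReal.ofReal_lt_ofReal_iff_of_nonneg ht.1.le).2 ht.2).trans_le hau),
        ENNReal.ofReal_mul (by norm_num)]
      simp
    · show (Ioo (0 : ℝ) a).indicator _ t ≤ _
      rw [indicator_of_notMem ht]
      exact zero_le
  by_cases hu : u = ⊤
  · have h2 : (∫⁻ t in Ioi (0 : ℝ), {t : ℝ | ENNReal.ofReal t < u}.indicator
      (fun t => 2 * ENNReal.ofReal t) t) = ⊤ := by
      apply ENNReal.eq_top_of_forall_nnreal_le
      intro r
      have h3 := key (max 1 r) (by positivity) (by rw [hu]; exact le_top)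
      refine le_trans ?_ h3
      have h4 : (1 : ℝ≥0∞) ≤ ENNReal.ofReal (max 1 r) := by
        rw [← ENNReal.ofReal_one]
        exact ENNReal.ofReal_le_ofReal (le_max_left _ _)
      have h5 : (r : ℝ≥0∞) ≤ ENNReal.ofReal (max 1 r) := by
        rw [← ENNReal.ofReal_coe_nnreal]
        exact ENNReal.ofReal_le_ofReal (le_max_right _ _)
      exact h5.trans (le_self_pow₀ h4 (by norm_num))
    rw [h2]; exact le_top
  · have h3 := key u.toReal ENNReal.toReal_nonneg (by rw [ENNReal.ofReal_toReal hu])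
    rwa [ENNReal.ofReal_toReal hu] at h3

/-- layer cake, upper bound -/
lemma cake2 (u : ℝ≥0∞) :
    ∫⁻ t in Ioi (0 : ℝ), {t : ℝ | ENNReal.ofReal (t / 2) < u}.indicator (fun _ => u) t ≤
      2 * u ^ 2 := by
  by_cases hu : u = ⊤
  · rw [hu]; simp
  · by_cases hu0 : u = 0
    · rw [hu0]; simp
    have hm : MeasurableSet {t : ℝ | ENNReal.ofReal (t / 2) < u} :=
      measurableSet_lt (by fun_prop) measurable_const
    rw [lintegral_indicator hm, setLIntegral_const, Measure.restrict_apply hm]
    have hsub : {t : ℝ | ENNReal.ofReal (t / 2) < u} ∩ Ioi 0 ⊆ Ioo 0 (2 * u.toReal) := by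
      rintro t ⟨h1, h2⟩
      refine ⟨h2, ?_⟩
      have h3 : ENNReal.ofReal (t / 2) < u := h1
      have h4 := (ENNReal.ofReal_lt_iff_lt_toReal (by
        have : (0 : ℝ) < t := h2
        positivity) hu).1 h3
      linarith
    calc u * volume ({t : ℝ | ENNReal.ofReal (t / 2) < u} ∩ Ioi 0) ≤
        u * volume (Ioo 0 (2 * u.toReal)) := mul_le_mul_right (measure_mono hsub) _
      _ = 2 * u ^ 2 := by
        rw [Real.volume_Ioo, sub_zero, ENNReal.ofReal_mul (by norm_num), ENNReal.ofReal_toReal hu]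
        simp only [ENNReal.ofReal_ofNat]
        ring

/-- HV-M -/
theorem t_M : StmM := by
  refine ⟨512, fun f hf => ?_⟩
  have hM := meas_MM f
  -- measurability on the product
  have m1 : Measurable fun p : E3 × ℝ => {t : ℝ | ENNReal.ofReal t < MM f p.1}.indicator
      (fun t => 2 * ENNReal.ofReal t) p.2 := by
    have hs : MeasurableSet {p : E3 × ℝ | ENNReal.ofReal p.2 < MM f p.1} :=
      measurableSet_lt (by fun_prop) (hM.comp measurable_fst)
    have : (fun p : E3 × ℝ => {t : ℝ | ENNReal.ofReal t < MM f p.1}.indicator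
      (fun t => 2 * ENNReal.ofReal t) p.2) = {p : E3 × ℝ | ENNReal.ofReal p.2 < MM f p.1}.indicator
        (fun p => 2 * ENNReal.ofReal p.2) := by
      funext p
      rfl
    rw [this]
    exact Measurable.indicator (by fun_prop) hs
  have m2 : Measurable fun p : E3 × ℝ => {t : ℝ | ENNReal.ofReal (t / 2) < f p.1}.indicator
      (fun _ => f p.1) p.2 := by
    have hs : MeasurableSet {p : E3 × ℝ | ENNReal.ofReal (p.2 / 2) < f p.1} :=
      measurableSet_lt (by fun_prop) (hf.comp measurable_fst)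
    have : (fun p : E3 × ℝ => {t : ℝ | ENNReal.ofReal (t / 2) < f p.1}.indicator
      (fun _ => f p.1) p.2) = {p : E3 × ℝ | ENNReal.ofReal (p.2 / 2) < f p.1}.indicator
        (fun p => f p.1) := by
      funext p
      rfl
    rw [this]
    exact Measurable.indicator (by fun_prop) hs
  calc ∫⁻ x, MM f x ^ 2 ≤ ∫⁻ x, ∫⁻ t in Ioi (0 : ℝ), {t : ℝ | ENNReal.ofReal t < MM f x}.indicator
        (fun t => 2 * ENNReal.ofReal t) t := lintegral_mono fun x => cake1 _
    _ = ∫⁻ t in Ioi (0 : ℝ), ∫⁻ x, {t : ℝ | ENNReal.ofReal t < MM f x}.indicator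
        (fun t => 2 * ENNReal.ofReal t) t := lintegral_lintegral_swap m1.aemeasurable
    _ ≤ ∫⁻ t in Ioi (0 : ℝ), 256 * ∫⁻ x, {t : ℝ | ENNReal.ofReal (t / 2) < f x}.indicator
        (fun _ => f x) t := by
        apply setLIntegral_mono' measurableSet_Ioi
        intro t ht
        have h1 : (fun x => {t : ℝ | ENNReal.ofReal t < MM f x}.indicator
            (fun t => 2 * ENNReal.ofReal t) t) =
            {x | ENNReal.ofReal t < MM f x}.indicator (fun _ => 2 * ENNReal.ofReal t) := by
          funext x; rfl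
        have h2 : (fun x => {t : ℝ | ENNReal.ofReal (t / 2) < f x}.indicator (fun _ => f x) t) =
            {y | ENNReal.ofReal (t / 2) < f y}.indicator f := by
          funext x; rfl
        rw [h1, h2, lintegral_indicator (measurableSet_lt measurable_const hM), setLIntegral_const]
        have h3 := level f hf (show (0 : ℝ) < t from ht)
        calc 2 * ENNReal.ofReal t * volume {x | ENNReal.ofReal t < MM f x} =
            2 * (ENNReal.ofReal t * volume {x | ENNReal.ofReal t < MM f x}) := by ring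
          _ ≤ 2 * (128 * ∫⁻ x, {y | ENNReal.ofReal (t / 2) < f y}.indicator f x) :=
              mul_le_mul_right h3 _
          _ = _ := by rw [← mul_assoc]; norm_num
    _ = 256 * ∫⁻ t in Ioi (0 : ℝ), ∫⁻ x, {t : ℝ | ENNReal.ofReal (t / 2) < f x}.indicator
        (fun _ => f x) t := lintegral_const_mul' _ _ (by norm_num)
    _ = 256 * ∫⁻ x, ∫⁻ t in Ioi (0 : ℝ), {t : ℝ | ENNReal.ofReal (t / 2) < f x}.indicator
        (fun _ => f x) t := by
        rw [(lintegral_lintegral_swap m2.aemeasurable).symm]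
    _ ≤ 256 * ∫⁻ x, 2 * f x ^ 2 := mul_le_mul_right (lintegral_mono fun x => cake2 _) _
    _ = ((512 : ℝ≥0) : ℝ≥0∞) * ∫⁻ x, f x ^ 2 := by
        rw [lintegral_const_mul' _ _ (by norm_num), ← mul_assoc]
        norm_num

end Q52.HV
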